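import Mathlib
import Pool.Agent.Lib.MP_d9d2fc_pr.Model
import Pool.Agent.Lib.MP_d9d2fc_pr.Star

open MeasureTheory ProbabilityTheory Filter
open scoped NNReal Topology
open Pool.Agent.Lib.MP_d9d2fc_pr

namespace Pool.Agent.Results.MP_d9d2fc_pr.Monotone

section

variable {d : ℕ} (fin fout : ℝ≥0 → unitInterval)

lemma measurableSet_overlap (hin : Measurable fin) (hout : Measurable fout) (τ : Estimator d)
    (n γ : ℝ) (N : ℕ) : MeasurableSet
      {ω : Sample d N | γ ≤ overlap (τ.toFun n N ω.1 (sampleGraph fin fout ω)) ω.2.1} := by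
  apply measurableSet_sample fin fout hin hout (fun x z H => γ ≤ overlap (τ.toFun n N x H) z)
  intro z H
  exact (τ.measurable n N H) (t := {t | γ ≤ overlap t z}) (Set.toFinite _).measurableSet

lemma probOverlapGe_le_one (τ : Estimator d) {lam n : ℝ} (γ : ℝ) (hn : 0 < n) :
    probOverlapGe fin fout τ lam n γ ≤ 1 := by
  unfold probOverlapGe
  calc _ ≤ ∫⁻ _, 1 ∂(poissonMeasure (lam * n).toNNReal) := by
        apply lintegral_mono
        intro N
        have := isProb_sampleLaw (d := d) (N := N) hn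
        exact prob_le_one
    _ = 1 := by simp

/-- probability of failure, averaged over the Poisson number of points -/
lemma fail_eq (hin : Measurable fin) (hout : Measurable fout) (τ : Estimator d) {lam n : ℝ}
    (γ : ℝ) (hn : 0 < n) :
    ∫⁻ m, sampleLaw d n m
      {ω | ¬ (γ ≤ overlap (τ.toFun n m ω.1 (sampleGraph fin fout ω)) ω.2.1)}
      ∂(poissonMeasure (lam * n).toNNReal) = 1 - probOverlapGe fin fout τ lam n γ := by
  apply ENNReal.eq_sub_of_add_eq
  · exact (lt_of_le_of_lt (probOverlapGe_le_one fin fout τ γ hn) ENNReal.one_lt_top).ne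
  · unfold probOverlapGe
    rw [← lintegral_add_left (measurable_of_countable _)]
    calc _ = ∫⁻ _, 1 ∂(poissonMeasure (lam * n).toNNReal) := by
          apply lintegral_congr
          intro m
          have := isProb_sampleLaw (d := d) (N := m) hn
          rw [add_comm]
          exact prob_add_prob_compl (measurableSet_overlap fin fout hin hout τ n γ m)
      _ = 1 := by simp

/-- the main inequality, averaged over the Poisson number of points -/
lemma main_ineq (hin : Measurable fin) (hout : Measurable fout) {τ τ₁ : Estimator d}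
    {lam lam' γ γ₁ : ℝ} (hlam : 0 < lam) (hlam' : lam ≤ lam') (hγ : 0 < γ) (hγ₁0 : 0 ≤ γ₁)
    (hγ₁ : γ₁ < γ)
    (hopt : ∀ n N x H t, score fin fout γ₁ x H t ≤ score fin fout γ₁ x H (τ₁.toFun n N x H))
    {ε : ℝ} (hε : 0 < ε) :
    ∃ η > 0, ∃ N₁ : ℕ, ∀ n : ℝ, 0 < n →
      ENNReal.ofReal (1 - ε) * poissonMeasure (lam' * n).toNNReal {N | N₁ ≤ N} ≤
        probOverlapGe fin fout τ₁ lam' n γ₁ + ENNReal.ofReal (1 / η) *
          (1 - probOverlapGe fin fout τ lam n γ) + ENNReal.ofReal ε := by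
  classical
  have hlam'0 : 0 < lam' := lt_of_lt_of_le hlam hlam'
  set ρ := lam / lam' with hρdef
  have hρ0 : 0 < ρ := div_pos hlam hlam'0
  have hρ1 : ρ ≤ 1 := (div_le_one hlam'0).mpr hlam'
  set ρ' := ρ * (γ₁ + γ) / (2 * γ) with hρ'def
  have hρ'0 : 0 < ρ' := by positivity
  have hρρ : ρ' < ρ := by
    rw [hρ'def, div_lt_iff₀ (by positivity)]
    nlinarith
  set κ := γ * ρ' with hκdef
  have hκ0 : 0 < κ := by positivity
  have hκρ : γ₁ < κ / ρ := by
    have : κ / ρ = (γ₁ + γ) / 2 := by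
      rw [hκdef, hρ'def]; field_simp
    rw [this]; linarith
  obtain ⟨η, hη, N₀, hfin⟩ := finite_lemma hρ0 hρ1 hκ0 hκρ hε
  have hd2 : 0 < (ρ - ρ') ^ 2 := by
    have : 0 < ρ - ρ' := by linarith
    positivity
  set N₁ : ℕ := max (max N₀ 1) ⌈1 / (η * ε * (ρ - ρ') ^ 2)⌉₊ with hN₁
  refine ⟨η, hη, N₁, fun n hn => ?_⟩
  -- for each N
  have hstar : ∀ N : ℕ, ENNReal.ofReal (1 - ε) * ({N | N₁ ≤ N}.indicator 1 N) ≤
      sampleLaw d n N {ω | γ₁ ≤ overlap (τ₁.toFun n N ω.1 (sampleGraph fin fout ω)) ω.2.1} +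
      ENNReal.ofReal (1 / η) * (∑ A : Finset (Fin N), ENNReal.ofReal (thin ρ A) *
        sampleLaw d n A.card
          {ω | ¬ (γ ≤ overlap (τ.toFun n A.card ω.1 (sampleGraph fin fout ω)) ω.2.1)}) +
      ENNReal.ofReal ε := by
    intro N
    by_cases hN : N₁ ≤ N
    · rw [Set.indicator_of_mem (by exact hN), Pi.one_apply, mul_one]
      have hN0 : N₀ ≤ N := ((le_max_left _ _).trans (le_max_left _ _)).trans hN
      have hN1 : 0 < N := ((le_max_right _ _).trans (le_max_left _ _)).trans hN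
      have hN2 : 1 / (η * ε * (ρ - ρ') ^ 2) ≤ N :=
        (Nat.le_ceil _).trans (by exact_mod_cast (le_max_right _ _).trans hN)
      have hN' : (0 : ℝ) < N := by exact_mod_cast hN1
      have h := star (N := N) fin fout hin hout (τ := τ) (n := n) (ρ := ρ) (γ := γ) (κ := κ)
        (ρ' := ρ') (γ₁ := γ₁) (ε := ε) (η := η) hn hρ0 hρ1 hγ hρ'0 hρρ hκdef hN1 hη hε
        (fun μ h1 h2 v h3 h4 h5 => by
          have := hfin (Fin N) (by simpa using hN0) μ h1 h2 v h3 h4 (by simpa using h5)
          simpa using this)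
        (τ₁.toFun n N) (τ₁.measurable n N) (hopt n N)
      refine h.trans ?_
      rw [mul_add, ← add_assoc]
      gcongr
      rw [← ENNReal.ofReal_mul (by positivity)]
      apply ENNReal.ofReal_le_ofReal
      rw [div_le_iff₀ (by positivity)] at hN2
      rw [div_mul_div_comm, one_mul, div_le_iff₀ (by positivity)]
      linarith
    · rw [Set.indicator_of_notMem (by exact hN), mul_zero]
      exact bot_le
  -- integrate
  have hL : ENNReal.ofReal (1 - ε) * poissonMeasure (lam' * n).toNNReal {N | N₁ ≤ N} =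
      ∫⁻ N, ENNReal.ofReal (1 - ε) * ({N | N₁ ≤ N}.indicator 1 N)
        ∂(poissonMeasure (lam' * n).toNNReal) := by
    rw [lintegral_const_mul _ (measurable_of_countable _), lintegral_indicator_one]
    exact MeasurableSet.of_discrete
  rw [hL]
  refine (lintegral_mono hstar).trans ?_
  rw [lintegral_add_right _ measurable_const, lintegral_add_left (measurable_of_countable _),
    lintegral_const_mul _ (measurable_of_countable _)]
  rw [poisson_thinning (lam' * n).toNNReal hρ0.le hρ1 (fun m => sampleLaw d n m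
          {ω | ¬ (γ ≤ overlap (τ.toFun n m ω.1 (sampleGraph fin fout ω)) ω.2.1)})]
  have hρΛ : ρ.toNNReal * (lam' * n).toNNReal = (lam * n).toNNReal := by
    rw [← Real.toNNReal_mul hρ0.le]
    congr 1
    rw [hρdef]; field_simp
  rw [hρΛ, fail_eq fin fout hin hout τ γ hn]
  apply add_le_add (add_le_add le_rfl le_rfl)
  simp

/-- overlaps achievable at `lam` are (almost) achievable at a larger intensity -/
lemma achievable_mono (hin : Measurable fin) (hout : Measurable fout) {l : Filter ℝ}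
    (hl : l ≤ atTop) {τ : Estimator d}
    {lam lam' γ γ₁ : ℝ} (hlam : 0 < lam) (hlam' : lam ≤ lam') (hγ₁0 : 0 ≤ γ₁)
    (hγ₁ : γ₁ < γ) (hτ : Tendsto (fun n => probOverlapGe fin fout τ lam n γ) l (𝓝 1)) :
    ∃ τ₁ : Estimator d, Tendsto (fun n => probOverlapGe fin fout τ₁ lam' n γ₁) l (𝓝 1) := by
  have hγ : 0 < γ := lt_of_le_of_lt hγ₁0 hγ₁
  have hlam'0 : 0 < lam' := lt_of_lt_of_le hlam hlam'
  choose topt h1 h2 h3 using fun N => exists_optimal (d := d) fin fout hin hout γ₁ N
  refine ⟨⟨fun _ N x H => topt N x H, fun n N H => h1 N H,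
    fun n N π x H hx => h2 N π x H hx⟩, ?_⟩
  set τ₁ : Estimator d := ⟨fun _ N x H => topt N x H, fun n N H => h1 N H,
    fun n N π x H hx => h2 N π x H hx⟩ with hτ₁
  have hpos : ∀ᶠ n in l, (0 : ℝ) < n := hl (eventually_gt_atTop 0)
  rw [ENNReal.tendsto_nhds ENNReal.one_ne_top]
  intro δ hδ
  -- a real number below δ
  obtain ⟨e, he0, heδ⟩ : ∃ e : ℝ, 0 < e ∧ ENNReal.ofReal (4 * e) ≤ δ := by
    rcases eq_or_ne δ ⊤ with h | h
    · exact ⟨1, one_pos, h ▸ le_top⟩
    · refine ⟨δ.toReal / 4, by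
        have := ENNReal.toReal_pos hδ.ne' h
        positivity, ?_⟩
      rw [mul_div_cancel₀ _ (by norm_num : (4 : ℝ) ≠ 0), ENNReal.ofReal_toReal h]
  obtain ⟨η, hη, N₁, hmain⟩ := main_ineq fin fout hin hout (τ := τ) (τ₁ := τ₁) hlam hlam' hγ hγ₁0
    hγ₁ (fun n N x H t => h3 N x H t) he0
  -- many points
  have hmany : ∀ᶠ n in l, poissonMeasure (lam' * n).toNNReal {N | N < N₁} ≤ ENNReal.ofReal e := by
    have h4 := tendsto_poisson_lt N₁ hl hlam'0
    exact h4.eventually_le_const (by simpa using he0)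
  have hfailsmall : ∀ᶠ n in l, ENNReal.ofReal (1 / η) *
      (1 - probOverlapGe fin fout τ lam n γ) ≤ ENNReal.ofReal e := by
    have h5 : Tendsto (fun n => 1 - probOverlapGe fin fout τ lam n γ) l (𝓝 (1 - 1)) :=
      ENNReal.Tendsto.sub tendsto_const_nhds hτ (Or.inl ENNReal.one_ne_top)
    rw [tsub_self] at h5
    have h6 := ENNReal.Tendsto.const_mul (a := ENNReal.ofReal (1 / η)) h5
      (Or.inr ENNReal.ofReal_ne_top)
    rw [mul_zero] at h6
    exact h6.eventually_le_const (by simpa using he0)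
  filter_upwards [hpos, hmany, hfailsmall] with n hn hn1 hn2
  refine ⟨?_, (probOverlapGe_le_one fin fout τ₁ γ₁ hn).trans le_self_add⟩
  rw [tsub_le_iff_right]
  have h7 := hmain n hn
  have h8 : (1 : ENNReal) ≤ poissonMeasure (lam' * n).toNNReal {N | N₁ ≤ N} +
      poissonMeasure (lam' * n).toNNReal {N | N < N₁} := by
    have h9 : {N : ℕ | N₁ ≤ N} ∪ {N | N < N₁} = Set.univ := by
      ext N; simp [le_or_gt]
    calc (1 : ENNReal) = poissonMeasure (lam' * n).toNNReal Set.univ := by simp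
      _ = poissonMeasure (lam' * n).toNNReal ({N : ℕ | N₁ ≤ N} ∪ {N | N < N₁}) := by rw [h9]
      _ ≤ _ := measure_union_le _ _
  have hle1 : poissonMeasure (lam' * n).toNNReal {N | N₁ ≤ N} ≤ 1 := prob_le_one
  have h10 : poissonMeasure (lam' * n).toNNReal {N | N₁ ≤ N} ≤
      ENNReal.ofReal (1 - e) * poissonMeasure (lam' * n).toNNReal {N | N₁ ≤ N} +
      ENNReal.ofReal e := by
    set p := poissonMeasure (lam' * n).toNNReal {N | N₁ ≤ N} with hp
    calc p = 1 * p := (one_mul p).symm
      _ ≤ (ENNReal.ofReal (1 - e) + ENNReal.ofReal e) * p := by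
          apply mul_le_mul_left
          calc (1 : ENNReal) = ENNReal.ofReal ((1 - e) + e) := by simp
            _ ≤ _ := ENNReal.ofReal_add_le
      _ = ENNReal.ofReal (1 - e) * p + ENNReal.ofReal e * p := add_mul _ _ _
      _ ≤ ENNReal.ofReal (1 - e) * p + ENNReal.ofReal e * 1 := by gcongr
      _ = _ := by rw [mul_one]
  calc (1 : ENNReal) ≤ (ENNReal.ofReal (1 - e) * poissonMeasure (lam' * n).toNNReal {N | N₁ ≤ N} +
      ENNReal.ofReal e) + ENNReal.ofReal e := h8.trans (add_le_add h10 hn1)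
    _ ≤ ((probOverlapGe fin fout τ₁ lam' n γ₁ + ENNReal.ofReal e + ENNReal.ofReal e) +
      ENNReal.ofReal e) + ENNReal.ofReal e := by
        gcongr
        refine h7.trans ?_
        gcongr
    _ = probOverlapGe fin fout τ₁ lam' n γ₁ + ENNReal.ofReal (4 * e) := by
        rw [add_assoc, add_assoc, add_assoc, ← ENNReal.ofReal_add he0.le he0.le,
          ← ENNReal.ofReal_add he0.le (by positivity), ← ENNReal.ofReal_add he0.le (by positivity)]
        congr 2
        ring
    _ ≤ _ := by gcongr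

lemma overlap_nonneg {N : ℕ} (t z : Fin N → Bool) : 0 ≤ overlap t z := by
  unfold overlap
  split_ifs <;> positivity

lemma overlap_le_one {N : ℕ} (t z : Fin N → Bool) : overlap t z ≤ 1 := by
  unfold overlap
  split_ifs with h
  · exact le_rfl
  · have hN : (0 : ℝ) < N := by positivity
    rw [div_le_one hN]
    calc |∑ i, spin (t i) * spin (z i)| ≤ ∑ i, |spin (t i) * spin (z i)| :=
          Finset.abs_sum_le_sum_abs _ _
      _ = ∑ i : Fin N, 1 := by
          apply Finset.sum_congr rfl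
          intro i _
          rw [abs_mul, spin_eq_sg, spin_eq_sg, abs_sg, abs_sg, one_mul]
      _ = N := by simp

lemma zero_mem {l : Filter ℝ} (hl : l ≤ atTop) (τ : Estimator d) (lam : ℝ) :
    (0 : ℝ) ∈ {γ | 0 ≤ γ ∧ Tendsto (fun n => probOverlapGe fin fout τ lam n γ) l (𝓝 1)} := by
  refine ⟨le_rfl, ?_⟩
  have hpos : ∀ᶠ n in l, (0 : ℝ) < n := hl (eventually_gt_atTop 0)
  refine tendsto_const_nhds.congr' ?_
  filter_upwards [hpos] with n hn
  unfold probOverlapGe
  symm
  calc _ = ∫⁻ _, 1 ∂(poissonMeasure (lam * n).toNNReal) := by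
        apply lintegral_congr
        intro N
        have := isProb_sampleLaw (d := d) (N := N) hn
        have h : {ω : Sample d N | 0 ≤ overlap (τ.toFun n N ω.1 (sampleGraph fin fout ω)) ω.2.1} =
            Set.univ := by
          ext ω; simp [overlap_nonneg]
        rw [h, measure_univ]
    _ = 1 := by simp

lemma le_one_of_mem {l : Filter ℝ} [l.NeBot] (τ : Estimator d) (lam : ℝ) {γ : ℝ}
    (h : γ ∈ {γ | 0 ≤ γ ∧ Tendsto (fun n => probOverlapGe fin fout τ lam n γ) l (𝓝 1)}) :
    γ ≤ 1 := by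
  by_contra hcon
  push Not at hcon
  have h1 : ∀ n, probOverlapGe fin fout τ lam n γ = 0 := by
    intro n
    unfold probOverlapGe
    calc _ = ∫⁻ _, 0 ∂(poissonMeasure (lam * n).toNNReal) := by
          apply lintegral_congr
          intro N
          have h2 : {ω : Sample d N | γ ≤ overlap (τ.toFun n N ω.1 (sampleGraph fin fout ω))
              ω.2.1} = ∅ := by
            ext ω
            simp only [Set.mem_ofPred_eq, Set.mem_empty_iff_false, iff_false, not_le]
            exact lt_of_le_of_lt (overlap_le_one _ _) hcon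
          rw [h2, measure_empty]
      _ = 0 := by simp
  have h2 := h.2
  simp_rw [h1] at h2
  have := tendsto_nhds_unique h2 tendsto_const_nhds
  simp at this

end

/-- **Monotonicity of the optimal overlap.**  For every dimension `d ≥ 1` and all measurable
connection functions `f_in, f_out : ℝ₊ → [0,1]`, the optimal overlap `O*(lam)` is a non-decreasing
function of the intensity `lam ∈ (0, ∞)`.  Here `l` is any proper filter on `ℝ` along which
`n → ∞`; `l = atTop` gives the limit over real `n`. -/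
theorem result (d : ℕ) (_hd : 1 ≤ d) (l : Filter ℝ) [l.NeBot] (hl : l ≤ atTop)
    (fin fout : ℝ≥0 → unitInterval) (hin : Measurable fin) (hout : Measurable fout) :
    MonotoneOn (optOverlap d l fin fout) (Set.Ioi 0) := by
  intro lam hlam lam' _ hle
  have hlam0 : 0 < lam := hlam
  have hbdd1 : ∀ (τ : Estimator d) (r : ℝ),
      BddAbove {γ | 0 ≤ γ ∧ Tendsto (fun n => probOverlapGe fin fout τ r n γ) l (𝓝 1)} :=
    fun τ r => ⟨1, fun γ hγ => le_one_of_mem fin fout τ r hγ⟩
  have hbdd2 : ∀ r : ℝ, BddAbove (Set.range fun τ : Estimator d => achieved l fin fout r τ) := by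
    intro r
    refine ⟨1, ?_⟩
    rintro _ ⟨τ, rfl⟩
    exact csSup_le ⟨0, zero_mem fin fout hl τ r⟩ fun γ hγ => le_one_of_mem fin fout τ r hγ
  have hconst : Nonempty (Estimator d) :=
    ⟨⟨fun _ _ _ _ _ => true, fun _ _ _ => measurable_const, fun _ _ _ _ _ _ => rfl⟩⟩
  unfold optOverlap
  apply csSup_le (Set.range_nonempty _)
  rintro _ ⟨τ, rfl⟩
  apply csSup_le ⟨0, zero_mem fin fout hl τ lam⟩
  intro γ hγ
  -- approximate γ from below
  apply le_of_forall_lt
  intro c hc
  rcases lt_or_ge c 0 with hc0 | hc0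
  · obtain ⟨τ₀⟩ := hconst
    have h1 : (0 : ℝ) ≤ achieved l fin fout lam' τ₀ :=
      le_csSup (hbdd1 τ₀ lam') (zero_mem fin fout hl τ₀ lam')
    have h2 : achieved l fin fout lam' τ₀ ≤
        sSup (Set.range fun τ : Estimator d => achieved l fin fout lam' τ) :=
      le_csSup (hbdd2 lam') ⟨τ₀, rfl⟩
    linarith
  · have hmid0 : 0 ≤ (c + γ) / 2 := by linarith
    have hmid1 : (c + γ) / 2 < γ := by linarith
    obtain ⟨τ₁, hτ₁⟩ := achievable_mono fin fout hin hout hl hlam0 hle hmid0 hmid1 hγ.2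
    have h1 : (c + γ) / 2 ≤ achieved l fin fout lam' τ₁ :=
      le_csSup (hbdd1 τ₁ lam') ⟨hmid0, hτ₁⟩
    have h2 : achieved l fin fout lam' τ₁ ≤
        sSup (Set.range fun τ : Estimator d => achieved l fin fout lam' τ) :=
      le_csSup (hbdd2 lam') ⟨τ₁, rfl⟩
    linarith

end Pool.Agent.Results.MP_d9d2fc_pr.Monotone
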